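import Pool.Agent.LibPS77.P2
import Pool.Agent.LibVT36.Defs2

/-!
[PS77 P3] The pull-back of a covering by a polynomial map with small ramification is unramified.
-/

namespace Pool.Agent.LibPS77

open Pool.Agent.LibBH2
open Pool.Agent.LibCHd (FunF)
open Pool.Agent.LibVT36 (cc IsEt NC lp Ram)
open Polynomial

variable {k : Type} [Field k]

/-- the multiplicity of the polynomial map `f` at `a` -/
noncomputable def mu (f : k[X]) (a : k) : ℕ := (f - C (f.eval a)).rootMultiplicity a

theorem sub_ne {f : k[X]} (hn : 0 < f.natDegree) (b : k) : f - C b ≠ 0 := by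
  intro h
  have h1 : (f - C b).natDegree = f.natDegree := natDegree_sub_C
  rw [h, natDegree_zero] at h1
  omega

theorem mu_pos {f : k[X]} (hn : 0 < f.natDegree) (a : k) : 0 < mu f a := by
  rw [mu, rootMultiplicity_pos (sub_ne hn _)]
  simp

/-- the local form of a polynomial map -/
theorem mu_spec {f : k[X]} (hn : 0 < f.natDegree) (a : k) :
    ∃ h : k[X], f - C (f.eval a) = (X - C a) ^ mu f a * h ∧ h.eval a ≠ 0 := by
  obtain ⟨h, h1, h2⟩ := exists_eq_pow_rootMultiplicity_mul_and_not_dvd _ (sub_ne hn (f.eval a)) a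
  exact ⟨h, h1, fun h0 => h2 (dvd_iff_isRoot.2 h0)⟩

section

variable {L L' : Type} [Field L] [Algebra k L] [Field L'] [Algebra k L']

theorem loc_fin {f : k[X]} (hn : 0 < f.natDegree) {φ : L →ₐ[k] L'} {t : L} {s : L'} (hs : aeval s f = φ t) (a : k) :
    ∃ h : k[X], φ (t - cc k L (f.eval a)) = (s - cc k L' a) ^ mu f a * aeval s h ∧ h.eval a ≠ 0 := by
  obtain ⟨h, h1, h2⟩ := mu_spec hn a
  refine ⟨h, ?_, h2⟩
  have h3 := congrArg (aeval s) h1
  rw [map_mul, map_pow, map_sub, map_sub, aeval_C, aeval_C, aeval_X, hs] at h3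
  rw [map_sub, AlgHom.commutes]
  exact h3

theorem loc_inf {f : k[X]} {φ : L →ₐ[k] L'} {t : L} {s : L'} (hs : aeval s f = φ t) (hs0 : s ≠ 0) (ht0 : t ≠ 0) :
    φ t⁻¹ * aeval s⁻¹ f.reverse = s⁻¹ ^ f.natDegree := by
  letI : Invertible s := invertibleOfNonzero hs0
  have h1 := eval₂_reverse_mul_pow (algebraMap k L') s f
  rw [invOf_eq_inv] at h1
  have h2 : aeval s⁻¹ f.reverse * s ^ f.natDegree = φ t := by
    rw [← hs]
    exact h1
  have h3 : φ t ≠ 0 := (map_ne_zero φ).2 ht0
  rw [map_inv₀, ← h2]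
  have h4 : aeval s⁻¹ f.reverse ≠ 0 := by
    intro h0
    rw [h0, zero_mul] at h2
    exact h3 h2.symm
  rw [mul_inv, inv_pow, mul_right_comm, inv_mul_cancel₀ h4, one_mul]

end

variable {L : Type} [Field L] [Algebra k L]

/-- the pull-back is unramified -/
theorem pull [IsAlgClosed k] [CharZero k] (hL : FunF k 1 L) {t : L} (ht : NC k t) {f : k[X]} (hn : 0 < f.natDegree)
    (hinf : Ram (k := k) t none f.natDegree) (hfin : ∀ a : k, Ram t (some (f.eval a)) (mu f a)) :
    ∃ (L' : Type) (_ : Field L') (_ : Algebra k L') (φ : L →ₐ[k] L') (s : L'), IsEt φ ∧ FunF k 1 L' ∧ NC k s ∧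
      aeval s f = φ t := by
  have hdeg : 0 < (f.map (algebraMap k L) - C t).natDegree := by
    rw [natDegree_sub_C, natDegree_map]
    exact hn
  obtain ⟨L', i1, i2, φ, s, hs, hfr, hF, hgen⟩ := ext_poly hL hdeg
  have hs' : aeval s f = φ t := by
    rw [eval₂_sub, eval₂_C, eval₂_map, sub_eq_zero] at hs
    have h1 : (φ : L →+* L').comp (algebraMap k L) = algebraMap k L' := by
      ext x
      exact φ.commutes x
    rw [h1] at hs
    exact hs
  have hφt : NC k (φ t) := ht.map φ
  have hsNC : NC k s := by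
    rintro ⟨c, rfl⟩
    apply hφt
    refine ⟨f.eval c, ?_⟩
    rw [← hs', aeval_algebraMap_apply, coe_aeval_eq_eval]
  refine ⟨L', i1, i2, φ, s, ⟨hfr, ?_⟩, hF, hsNC, hs'⟩
  intro w
  apply unr_of_ap
  have hAp : Ap φ w s := by
    by_cases hreg : w.Reg s
    · obtain ⟨a, ha⟩ := exists_value hF w hreg
      obtain ⟨h, h1, h2⟩ := loc_fin hn hs' a
      have hr0 : s - algebraMap k L' a ≠ 0 := hsNC.sub_ne a
      have hr : 0 < w.ord (s - algebraMap k L' a) := ha.resolve_left hr0
      have h3 : Ap φ w (s - algebraMap k L' a) := by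
        refine ap_local hfr hF w (mu_pos hn a) hr (T := t - cc k L (f.eval a)) (H₁ := 1)
          (H₂ := h.comp (X + C a)) ?_ ?_ ?_ ?_
        · intro v hv
          exact hfin a v hv
        · simp
        · rw [eval_comp]
          simpa using h2
        · rw [h1, map_one, mul_one, aeval_comp]
          congr 2
          simp
      have h4 := h3.add (Ap.of φ w (algebraMap k L a))
      rw [AlgHom.commutes, sub_add_cancel] at h4
      exact h4
    · have hs0 : s ≠ 0 := fun h0 => hreg (by rw [h0]; exact w.reg_zero)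
      have hneg : w.ord s < 0 := by
        by_contra hcon
        exact hreg (Or.inr (not_lt.1 hcon))
      have ht0 : t ≠ 0 := ht.ne_zero
      have h1 := loc_inf hs' hs0 ht0
      have h3 : Ap φ w s⁻¹ := by
        refine ap_local hfr hF w hn (by rw [w.ord_inv]; omega) (T := t⁻¹) (H₁ := f.reverse) (H₂ := 1) ?_ ?_ ?_ ?_
        · intro v hv
          exact hinf v hv
        · rw [← coeff_zero_eq_eval_zero, coeff_zero_reverse]
          intro h0
          rw [leadingCoeff_eq_zero] at h0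
          rw [h0, natDegree_zero] at hn
          omega
        · simp
        · rw [h1, map_one, mul_one]
      have h4 := h3.inv
      rwa [inv_inv] at h4
  intro h
  obtain ⟨P, rfl⟩ := hgen h
  exact hAp.eval₂ P

section

variable {L' : Type} [Field L'] [Algebra k L']

/-- the ramification of `s` over a finite point -/
theorem ram_fin {f : k[X]} (hn : 0 < f.natDegree) {φ : L →ₐ[k] L'} (hφ : IsEt φ) {t : L} {s : L'} (hsNC : NC k s)
    (hs : aeval s f = φ t) {a : k} {m : ℕ} (h : Ram t (some (f.eval a)) (mu f a * m)) : Ram s (some a) m := by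
  intro w hw
  obtain ⟨v, hv⟩ := hφ.restr w
  obtain ⟨g, h1, h2⟩ := loc_fin hn hs a
  have hw' : 0 < w.ord (s - cc k L' a) := hw
  have hz : w.Zer (s - algebraMap k L' a) := Or.inr hw'
  have hg := Place.val_aeval hz g
  have hg0 := Place.ne_zero_of_val hg h2
  have hr0 : s - cc k L' a ≠ 0 := hsNC.sub_ne a
  have h3 : v.ord (t - cc k L (f.eval a)) = mu f a * w.ord (s - cc k L' a) := by
    rw [hv, h1, w.ord_mul _ _ (pow_ne_zero _ hr0) hg0, w.ord_pow, Place.ord_eq_zero_of_val hg h2, add_zero]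
  have hmu : (0 : ℤ) < mu f a := by exact_mod_cast mu_pos hn a
  have h4 : 0 < v.ord (lp t (some (f.eval a))) := by
    show 0 < v.ord (t - cc k L (f.eval a))
    rw [h3]
    exact mul_pos hmu hw'
  have h5 := h v h4
  have h6 : ((mu f a * m : ℕ) : ℤ) ∣ mu f a * w.ord (s - cc k L' a) := by
    rw [← h3]
    exact h5
  rw [Nat.cast_mul] at h6
  exact (mul_dvd_mul_iff_left hmu.ne').1 h6

/-- the ramification of `s` over infinity -/
theorem ram_inf {f : k[X]} (hn : 0 < f.natDegree) {φ : L →ₐ[k] L'} (hφ : IsEt φ) {t : L} (ht : NC k t) {s : L'}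
    (hsNC : NC k s) (hs : aeval s f = φ t) {m : ℕ} (h : Ram (k := k) t none (f.natDegree * m)) :
    Ram (k := k) s none m := by
  intro w hw
  obtain ⟨v, hv⟩ := hφ.restr w
  have hw' : 0 < w.ord s⁻¹ := hw
  have hs0 : s ≠ 0 := hsNC.ne_zero
  have h1 := loc_inf hs hs0 ht.ne_zero
  have hz : w.Zer (s⁻¹ - algebraMap k L' 0) := by
    rw [map_zero, sub_zero]
    exact Or.inr hw'
  have hl : f.reverse.eval 0 ≠ 0 := by
    rw [← coeff_zero_eq_eval_zero, coeff_zero_reverse]
    intro h0
    rw [leadingCoeff_eq_zero] at h0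
    rw [h0, natDegree_zero] at hn
    omega
  have hg := Place.val_aeval hz f.reverse
  have hg0 := Place.ne_zero_of_val hg hl
  have ht0 : φ t⁻¹ ≠ 0 := (map_ne_zero φ).2 (inv_ne_zero ht.ne_zero)
  have h3 : v.ord t⁻¹ = f.natDegree * w.ord s⁻¹ := by
    rw [hv, ← w.ord_pow, ← h1, w.ord_mul _ _ ht0 hg0, Place.ord_eq_zero_of_val hg hl, add_zero]
  have hn' : (0 : ℤ) < f.natDegree := by exact_mod_cast hn
  have h4 : 0 < v.ord (lp (k := k) t none) := by
    show 0 < v.ord t⁻¹
    rw [h3]
    exact mul_pos hn' hw'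
  have h5 := h v h4
  have h6 : ((f.natDegree * m : ℕ) : ℤ) ∣ f.natDegree * w.ord s⁻¹ := by
    rw [← h3]
    exact h5
  rw [Nat.cast_mul] at h6
  exact (mul_dvd_mul_iff_left hn'.ne').1 h6

end

end Pool.Agent.LibPS77
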