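import Mathlib

/-!
[PS77 Dim] Fewer than `n` polynomial equations in `n` unknowns over an algebraically closed field have no isolated
solution (Krull's height theorem).
-/

namespace Pool.Agent.LibPS77

open MvPolynomial

variable {k : Type*} [Field k] {n : ℕ}

/-- translation -/
noncomputable def trans (x : Fin n → k) : MvPolynomial (Fin n) k ≃ₐ[k] MvPolynomial (Fin n) k :=
  AlgEquiv.ofAlgHom (aeval fun i => X i + C (x i)) (aeval fun i => X i - C (x i)) (by ext; simp) (by ext; simp)

theorem comap_trans (x y : Fin n → k) :
    (vanishingIdeal k {y}).comap ((trans x).toRingEquiv) = vanishingIdeal k {x + y} := by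
  ext p
  rw [Ideal.mem_comap, mem_vanishingIdeal_singleton_iff, mem_vanishingIdeal_singleton_iff]
  have h : aeval y ((trans x).toRingEquiv p) = aeval (x + y) p := by
    show aeval y (aeval (fun i => X i + C (x i)) p) = _
    rw [← AlgHom.comp_apply]
    congr 1
    ext i
    simp [add_comm]
  rw [h]

theorem height_pt [IsAlgClosed k] (x : Fin n → k) : (vanishingIdeal k {x}).height = n := by
  have hdim : ringKrullDim (MvPolynomial (Fin n) k) = n := by
    rw [MvPolynomial.ringKrullDim_of_isNoetherianRing, ringKrullDim_eq_zero_of_field]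
    simp
  have : FiniteRingKrullDim (MvPolynomial (Fin n) k) := by
    rw [finiteRingKrullDim_iff_ne_bot_and_top, hdim]
    refine ⟨?_, ?_⟩
    · exact WithBot.coe_ne_bot
    · intro h
      have := WithBot.coe_injective h
      exact ENat.coe_ne_top n this
  obtain ⟨M, hM, hh⟩ := Ideal.exists_isMaximal_height (R := MvPolynomial (Fin n) k)
  obtain ⟨y, hy⟩ := isMaximal_iff_eq_vanishingIdeal_singleton.1 hM
  have h1 : vanishingIdeal k {x} = M.comap ((trans (x - y)).toRingEquiv) := by
    rw [hy, comap_trans, sub_add_cancel]
  have h2 : M.height = n := by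
    rw [hdim] at hh
    exact WithBot.coe_injective hh
  rw [h1, RingEquiv.height_comap, h2]

/-- a solution of fewer than `n` equations in `n` unknowns is not isolated: there is a solution different from the given
one with `h ≠ 0`, for every `h` which does not vanish at the given one -/
theorem exists_ne_aux [IsAlgClosed k] {m : ℕ} (hm : m < n) (g : Fin m → MvPolynomial (Fin n) k) (x₀ : Fin n → k)
    (h0 : ∀ i, aeval x₀ (g i) = 0) : ∃ x : Fin n → k, x ≠ x₀ ∧ ∀ i, aeval x (g i) = 0 := by
  by_contra hcon
  push Not at hcon
  classical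
  set I : Ideal (MvPolynomial (Fin n) k) := Ideal.span (Set.range g) with hI
  have hz : zeroLocus k I = {x₀} := by
    ext x
    rw [hI, zeroLocus_span, Set.mem_setOf_eq, Set.mem_singleton_iff]
    constructor
    · intro h1
      by_contra hx
      obtain ⟨i, hi⟩ := hcon x hx
      exact hi (h1 _ (Set.mem_range_self i))
    · rintro rfl p ⟨i, rfl⟩
      exact h0 i
  have hrad : I.radical = vanishingIdeal k {x₀} := by
    rw [← vanishingIdeal_zeroLocus_eq_radical (K := k), hz]
  have hmin : vanishingIdeal k {x₀} ∈ I.minimalPrimes := by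
    refine ⟨⟨inferInstance, ?_⟩, ?_⟩
    · rw [← hrad]
      exact Ideal.le_radical
    · intro J hJ _
      rw [← hrad]
      exact hJ.1.radical_le_iff.2 hJ.2
  have h1 := Ideal.height_le_card_of_mem_minimalPrimes_span (Set.finite_range g) hmin
  rw [height_pt] at h1
  have h2 : (Set.range g).ncard ≤ m := by
    have := Set.ncard_image_le (f := g) (Set.finite_univ (α := Fin m))
    rw [Set.image_univ, Set.ncard_univ, Nat.card_eq_fintype_card, Fintype.card_fin] at this
    exact this
  have h3 : (n : ℕ∞) ≤ (m : ℕ∞) := h1.trans (by exact_mod_cast h2)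
  have h4 : n ≤ m := by exact_mod_cast h3
  omega

/-- The dimension theorem: polynomials without constant term, fewer than unknowns, have a common zero `x ≠ 0`. -/
theorem exists_ne_zero [IsAlgClosed k] {σ τ : Type*} [Fintype σ] [Fintype τ] (hc : Fintype.card τ < Fintype.card σ)
    (g : τ → MvPolynomial σ k) (h0 : ∀ i, aeval (0 : σ → k) (g i) = 0) :
    ∃ x : σ → k, x ≠ 0 ∧ ∀ i, aeval x (g i) = 0 := by
  classical
  set eσ := Fintype.equivFin σ
  set eτ := Fintype.equivFin τ
  obtain ⟨x, hx, hg⟩ := exists_ne_aux hc (fun i => rename eσ (g (eτ.symm i))) (0 : Fin (Fintype.card σ) → k) (by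
    intro i
    rw [aeval_rename]
    exact h0 _)
  refine ⟨x ∘ eσ, ?_, ?_⟩
  · intro h
    apply hx
    funext j
    have := congrFun h (eσ.symm j)
    simpa using this
  · intro i
    have := hg (eτ i)
    rw [aeval_rename, Equiv.symm_apply_apply] at this
    exact this

end Pool.Agent.LibPS77
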