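import Pool.Agent.LibVT36.A0

/-!
[PS77 P1] Approximation of the solutions of `z ^ e * H₂ (g z) = τ * H₁ (g z)` at a place.
-/

namespace Pool.Agent.LibPS77

open Pool.Agent.LibBH2
open Pool.Agent.LibCHd (FunF)
open Pool.Agent.LibVT36 (cc IsEt NC)

variable {k : Type} [Field k]

section

variable {K : Type} [Field K] [Algebra k K]

theorem reg_sum (w : Place k K) {ι : Type} (s : Finset ι) (f : ι → K) (h : ∀ i ∈ s, w.Reg (f i)) :
    w.Reg (∑ i ∈ s, f i) := by
  classical
  induction s using Finset.induction_on with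
  | empty => simp [Place.reg_zero]
  | insert a s ha ih =>
    rw [Finset.sum_insert ha]
    exact (h a (Finset.mem_insert_self a s)).add (ih fun i hi => h i (Finset.mem_insert_of_mem hi))

/-- values of finite sums -/
theorem val_sum (w : Place k K) {ι : Type} (s : Finset ι)
    (f : ι → K) (c : ι → k) (h : ∀ i ∈ s, w.Zer (f i - algebraMap k K (c i))) :
    w.Zer (∑ i ∈ s, f i - algebraMap k K (∑ i ∈ s, c i)) := by
  classical
  induction s using Finset.induction_on with
  | empty => simp [Place.zer_zero]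
  | insert a s ha ih =>
    rw [Finset.sum_insert ha, Finset.sum_insert ha]
    exact Place.val_add (h a (Finset.mem_insert_self a s))
      (ih fun i hi => h i (Finset.mem_insert_of_mem hi))

/-- the difference quotient of a polynomial with constant coefficients is regular -/
theorem slope_poly (w : Place k K) {x y : K} (hx : w.Reg x) (hy : w.Reg y) (H : Polynomial k) :
    ∃ Q : K, w.Reg Q ∧ Polynomial.aeval x H - Polynomial.aeval y H = (x - y) * Q := by
  induction H using Polynomial.induction_on' with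
  | add p q hp hq =>
    obtain ⟨Q, hQ, h⟩ := hp
    obtain ⟨Q', hQ', h'⟩ := hq
    refine ⟨Q + Q', hQ.add hQ', ?_⟩
    rw [map_add, map_add]
    linear_combination h + h'
  | monomial n a =>
    refine ⟨algebraMap k K a * ∑ i ∈ Finset.range n, x ^ i * y ^ (n - 1 - i), ?_, ?_⟩
    · exact (w.reg_const a).mul (reg_sum w _ _ fun i _ => (hx.pow i).mul (hy.pow _))
    · have hS := (Commute.all x y).geom_sum₂_mul n
      rw [Polynomial.aeval_monomial, Polynomial.aeval_monomial]
      linear_combination -(algebraMap k K a) * hS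

end

variable {L L' : Type} [Field L] [Algebra k L] [Field L'] [Algebra k L']

/-- linear convergence to a simple solution -/
theorem approx_pull [CharZero k] (φ : L →ₐ[k] L') (w : Place k L') {g τ : L} {z : L'} {e : ℕ} (he : 0 < e) {c : k}
    (hc : c ≠ 0) (hz : w.Zer (z - cc k L' c)) (hg : w.Zer (φ g)) (hτ : w.Reg (φ τ)) {H₁ H₂ : Polynomial k}
    (h2 : H₂.eval 0 ≠ 0)
    (heq : z ^ e * Polynomial.aeval (φ g * z) H₂ = φ τ * Polynomial.aeval (φ g * z) H₁) (N : ℕ) :
    ∃ b : L, w.Zer (φ b - cc k L' c) ∧ (φ b = z ∨ (N : ℤ) ≤ w.ord (φ b - z)) := by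
  have hz' : w.Zer (z - algebraMap k L' c) := hz
  have hzr : w.Reg z := Place.reg_of_val hz'
  induction N with
  | zero =>
    refine ⟨algebraMap k L c, ?_, ?_⟩
    · have h : φ (algebraMap k L c) - cc k L' c = 0 := by
        rw [AlgHom.commutes]
        exact sub_self _
      rw [h]
      exact Place.zer_zero w
    · have h : φ (algebraMap k L c) - z = -(z - cc k L' c) := by
        rw [AlgHom.commutes]
        show algebraMap k L' c - z = -(z - algebraMap k L' c)
        ring
      rcases hz with hv | hv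
      · left
        rw [hv, neg_zero, sub_eq_zero] at h
        exact h
      · right
        rw [h, Place.ord_neg]
        simpa using hv.le
  | succ N ih =>
    obtain ⟨b, hb, h⟩ := ih
    rcases h with h | h
    · exact ⟨b, hb, Or.inl h⟩
    by_cases hd : φ b = z
    · exact ⟨b, hb, Or.inl hd⟩
    have hb' : w.Zer (φ b - algebraMap k L' c) := hb
    have hbr : w.Reg (φ b) := Place.reg_of_val hb'
    set δ : k := (e : k) * c ^ (e - 1) * H₂.eval 0 with hδ
    have he0 : (e : k) ≠ 0 := Nat.cast_ne_zero.2 he.ne'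
    have hδ0 : δ ≠ 0 := mul_ne_zero (mul_ne_zero he0 (pow_ne_zero _ hc)) h2
    -- the difference quotients
    obtain ⟨Q₂, hQ₂, hq₂⟩ := slope_poly w (hg.reg.mul hbr) (hg.reg.mul hzr) H₂
    obtain ⟨Q₁, hQ₁, hq₁⟩ := slope_poly w (hg.reg.mul hbr) (hg.reg.mul hzr) H₁
    set F : L := b ^ e * Polynomial.aeval (g * b) H₂ - τ * Polynomial.aeval (g * b) H₁ with hF
    have hFm : φ F = φ b ^ e * Polynomial.aeval (φ g * φ b) H₂ - φ τ * Polynomial.aeval (φ g * φ b) H₁ := by
      rw [hF, map_sub, map_mul, map_mul, map_pow, ← Polynomial.aeval_algHom_apply, ← Polynomial.aeval_algHom_apply,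
        map_mul]
    set S : L' := ∑ i ∈ Finset.range e, φ b ^ i * z ^ (e - 1 - i) with hS
    have hSe : S * (φ b - z) = φ b ^ e - z ^ e := (Commute.all (φ b) z).geom_sum₂_mul e
    set Q : L' := S * Polynomial.aeval (φ g * φ b) H₂ + z ^ e * (φ g * Q₂) - φ τ * (φ g * Q₁) with hQ
    have hFQ : φ F = (φ b - z) * Q := by
      rw [hFm, hQ]
      linear_combination -(Polynomial.aeval (φ g * φ b) H₂) * hSe + heq + z ^ e * hq₂ - φ τ * hq₁
    have hSv : w.Zer (S - algebraMap k L' ((e : k) * c ^ (e - 1))) := by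
      have h1 := val_sum w (Finset.range e) (fun i => φ b ^ i * z ^ (e - 1 - i))
        (fun i => c ^ i * c ^ (e - 1 - i)) (fun i _ => Place.val_mul (Place.val_pow hb' _) (Place.val_pow hz' _))
      have h2 : ∑ i ∈ Finset.range e, c ^ i * c ^ (e - 1 - i) = (e : k) * c ^ (e - 1) := by
        rw [Finset.sum_congr rfl (g := fun _ => c ^ (e - 1)) (fun i hi => ?_), Finset.sum_const,
          Finset.card_range, nsmul_eq_mul]
        have := Finset.mem_range.1 hi
        rw [← pow_add]
        congr 1
        omega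
      rw [h2] at h1
      exact h1
    have hgb : w.Zer (φ g * φ b - algebraMap k L' 0) := by
      rw [map_zero, sub_zero]
      exact hg.mul_reg hbr
    have hHv : w.Zer (Polynomial.aeval (φ g * φ b) H₂ - algebraMap k L' (H₂.eval 0)) := Place.val_aeval hgb H₂
    have hQv : w.Zer (Q - algebraMap k L' δ) := by
      have h1 : Q - algebraMap k L' δ = (S * Polynomial.aeval (φ g * φ b) H₂ - algebraMap k L' δ) +
          (z ^ e * (φ g * Q₂) - φ τ * (φ g * Q₁)) := by rw [hQ]; ring
      rw [h1]
      refine Place.Zer.add ?_ (Place.Zer.sub ?_ ?_)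
      · rw [hδ]
        exact Place.val_mul hSv hHv
      · exact Place.Zer.reg_mul (hzr.pow e) (hg.mul_reg hQ₂)
      · exact Place.Zer.reg_mul hτ (hg.mul_reg hQ₁)
    -- the step
    have hεv : w.Zer (1 - Q * (algebraMap k L' δ)⁻¹) := by
      have h1 : 1 - Q * (algebraMap k L' δ)⁻¹ = -((Q - algebraMap k L' δ) * algebraMap k L' δ⁻¹) := by
        have h3 : algebraMap k L' δ ≠ 0 := (map_ne_zero _).2 hδ0
        rw [map_inv₀]
        field_simp
        ring
      rw [h1]
      exact (hQv.mul_reg (w.reg_const _)).neg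
    have hkey : φ (b - F * algebraMap k L δ⁻¹) - z = (φ b - z) * (1 - Q * (algebraMap k L' δ)⁻¹) := by
      rw [map_sub, map_mul, hFQ, AlgHom.commutes, map_inv₀]
      ring
    have hdz : w.Zer (φ b - z) := by
      have h1 := Place.val_sub hb' hz'
      rwa [sub_self, map_zero, sub_zero] at h1
    have hd0 : φ b - z ≠ 0 := sub_ne_zero.2 hd
    refine ⟨b - F * algebraMap k L δ⁻¹, ?_, ?_⟩
    · have h1 : φ (b - F * algebraMap k L δ⁻¹) - cc k L' c =
          (φ (b - F * algebraMap k L δ⁻¹) - z) + (z - cc k L' c) := by ring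
      rw [h1, hkey]
      exact (Place.Zer.mul_reg hdz hεv.reg).add hz
    · by_cases hε0 : 1 - Q * (algebraMap k L' δ)⁻¹ = 0
      · left
        rw [hε0, mul_zero, sub_eq_zero] at hkey
        exact hkey
      · right
        have hε1 := hεv.resolve_left hε0
        rw [hkey, w.ord_mul _ _ hd0 hε0]
        push_cast
        omega

end Pool.Agent.LibPS77
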