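import Pool.Agent.LibPS77.P1
import Pool.Agent.LibVT36.A1
import Pool.Agent.LibCHd.A1
import Pool.Agent.LibCHd.B4

/-!
[PS77 P2] Approximation by the elements of the smaller field; the field `L[s]`, `P(s) = 0`.
-/

namespace Pool.Agent.LibPS77

open Pool.Agent.LibBH2
open Pool.Agent.LibCHd (FunF)
open Pool.Agent.LibVT36 (cc IsEt NC)

variable {k : Type} [Field k]

section

variable {L : Type} [Field L] [Algebra k L]

/-- order at least `n` -/
def Ge (w : Place k L) (n : ℤ) (f : L) : Prop := f = 0 ∨ n ≤ w.ord f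

theorem Ge.add {w : Place k L} {n : ℤ} {f g : L} (hf : Ge w n f) (hg : Ge w n g) : Ge w n (f + g) := by
  by_cases h0 : f + g = 0
  · exact Or.inl h0
  by_cases hf0 : f = 0
  · rw [hf0, zero_add]
    exact hg
  by_cases hg0 : g = 0
  · rw [hg0, add_zero]
    exact hf
  exact Or.inr ((le_min (hf.resolve_left hf0) (hg.resolve_left hg0)).trans (w.ord_add f g hf0 hg0 h0))

theorem Ge.neg {w : Place k L} {n : ℤ} {f : L} (hf : Ge w n f) : Ge w n (-f) := by
  rcases hf with h | h
  · left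
    rw [h, neg_zero]
  · right
    rw [w.ord_neg]
    exact h

theorem Ge.sub {w : Place k L} {n : ℤ} {f g : L} (hf : Ge w n f) (hg : Ge w n g) : Ge w n (f - g) := by
  rw [sub_eq_add_neg]
  exact hf.add hg.neg

theorem Ge.mul {w : Place k L} {n m : ℤ} {f g : L} (hf : Ge w n f) (hg : Ge w m g) : Ge w (n + m) (f * g) := by
  by_cases hf0 : f = 0
  · left
    rw [hf0, zero_mul]
  by_cases hg0 : g = 0
  · left
    rw [hg0, mul_zero]
  right
  rw [w.ord_mul _ _ hf0 hg0]
  exact add_le_add (hf.resolve_left hf0) (hg.resolve_left hg0)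

theorem Ge.mono {w : Place k L} {n m : ℤ} {f : L} (hf : Ge w n f) (h : m ≤ n) : Ge w m f :=
  hf.imp id fun h1 => h.trans h1

theorem ord_add_ge {w : Place k L} {f g : L} (hf : f ≠ 0) (hg : Ge w (w.ord f + 1) g) :
    f + g ≠ 0 ∧ w.ord (f + g) = w.ord f := by
  by_cases hg0 : g = 0
  · rw [hg0, add_zero]
    exact ⟨hf, rfl⟩
  · exact Place.ord_add_of_lt hf hg0 (by have := hg.resolve_left hg0; omega)

end

variable {L L' : Type} [Field L] [Algebra k L] [Field L'] [Algebra k L']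

/-- the elements which are approximated by the elements of the smaller field -/
def Ap (i : L →ₐ[k] L') (w : Place k L') (s : L') : Prop := ∀ N : ℤ, ∃ f : L, Ge w N (s - i f)

theorem Ap.of (i : L →ₐ[k] L') (w : Place k L') (f : L) : Ap i w (i f) := by
  intro N
  exact ⟨f, Or.inl (sub_self _)⟩

theorem Ap.add {i : L →ₐ[k] L'} {w : Place k L'} {s s' : L'} (hs : Ap i w s) (hs' : Ap i w s') :
    Ap i w (s + s') := by
  intro N
  obtain ⟨f, hf⟩ := hs N
  obtain ⟨f', hf'⟩ := hs' N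
  refine ⟨f + f', ?_⟩
  have e : s + s' - i (f + f') = (s - i f) + (s' - i f') := by
    rw [map_add]
    ring
  rw [e]
  exact hf.add hf'

theorem Ap.mul {i : L →ₐ[k] L'} {w : Place k L'} {s s' : L'} (hs : Ap i w s) (hs' : Ap i w s') :
    Ap i w (s * s') := by
  intro N
  obtain ⟨f', hf'⟩ := hs' (max 0 (N - w.ord s))
  have h1 : Ge w (min 0 (w.ord s')) (i f') := by
    have h2 : Ge w (min 0 (w.ord s')) s' := Or.inr (min_le_right _ _)
    have h3 := h2.sub (hf'.mono (m := min 0 (w.ord s')) ((min_le_left _ _).trans (le_max_left _ _)))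
    have e : s' - (s' - i f') = i f' := by ring
    rwa [e] at h3
  obtain ⟨f, hf⟩ := hs (N - min 0 (w.ord s'))
  refine ⟨f * f', ?_⟩
  have e : s * s' - i (f * f') = s * (s' - i f') + i f' * (s - i f) := by
    rw [map_mul]
    ring
  rw [e]
  refine Ge.add ?_ ?_
  · have h4 : Ge w (w.ord s) s := Or.inr le_rfl
    refine (h4.mul hf').mono ?_
    have := le_max_right 0 (N - w.ord s)
    omega
  · refine (h1.mul hf).mono ?_
    omega

theorem Ap.inv {i : L →ₐ[k] L'} {w : Place k L'} {s : L'} (hs : Ap i w s) : Ap i w s⁻¹ := by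
  by_cases hs0 : s = 0
  · rw [hs0, inv_zero]
    have := Ap.of i w 0
    rwa [map_zero] at this
  intro N
  obtain ⟨b, hb⟩ := hs (max (w.ord s + 1) (N + 2 * w.ord s))
  have h1 : s + -(s - i b) = i b := by ring
  have h2 := ord_add_ge hs0 (hb.neg.mono (le_max_left _ _))
  rw [h1] at h2
  refine ⟨b⁻¹, ?_⟩
  have e : s⁻¹ - i b⁻¹ = -((s - i b) * (s⁻¹ * (i b)⁻¹)) := by
    rw [map_inv₀]
    field_simp
    have := h2.1
    field_simp
    ring
  rw [e]
  have h3 : Ge w (-w.ord s + -w.ord s) (s⁻¹ * (i b)⁻¹) := by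
    right
    rw [w.ord_mul _ _ (inv_ne_zero hs0) (inv_ne_zero h2.1), w.ord_inv, w.ord_inv, h2.2]
  refine ((hb.mul h3).neg).mono ?_
  have := le_max_right (w.ord s + 1) (N + 2 * w.ord s)
  omega

theorem Ap.pow {i : L →ₐ[k] L'} {w : Place k L'} {s : L'} (hs : Ap i w s) (n : ℕ) : Ap i w (s ^ n) := by
  induction n with
  | zero =>
    rw [pow_zero, ← map_one i]
    exact Ap.of i w 1
  | succ n ih =>
    rw [pow_succ]
    exact ih.mul hs

theorem Ap.eval₂ {i : L →ₐ[k] L'} {w : Place k L'} {s : L'} (hs : Ap i w s) (P : Polynomial L) :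
    Ap i w (Polynomial.eval₂ (i : L →+* L') s P) := by
  induction P using Polynomial.induction_on' with
  | add p q hp hq =>
    rw [Polynomial.eval₂_add]
    exact hp.add hq
  | monomial n a =>
    rw [Polynomial.eval₂_monomial]
    exact (Ap.of i w a).mul (hs.pow n)

/-- a place is unramified if all elements are approximated -/
theorem unr_of_ap {i : L →ₐ[k] L'} {w : Place k L'} (h : ∀ s, Ap i w s) : ∃ x : L, w.ord (i x) = 1 := by
  obtain ⟨s, hs⟩ := w.exists_uniformizer
  have hs0 : s ≠ 0 := by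
    rintro rfl
    rw [w.ord_zero] at hs
    omega
  obtain ⟨x, hx⟩ := h s 2
  refine ⟨x, ?_⟩
  have h1 : s + -(s - i x) = i x := by ring
  have h2 := ord_add_ge hs0 (hx.neg.mono (by rw [hs]; norm_num))
  rw [h1, hs] at h2
  exact h2.2

theorem finrank_ne {M M' : Type} [Field M] [Algebra k M] [Field M'] [Algebra k M'] [Algebra M M']
    (σ : M →ₐ[k] M') (hσ : ∀ x, algebraMap M M' x = σ x) [Module.Finite M M'] :
    Module.finrank σ.fieldRange M' ≠ 0 := by
  have h1 : Module.Finite σ.fieldRange M' := by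
    refine Module.Finite.of_equiv_equiv (A₁ := M) (B₁ := M') (AlgHom.equivFieldRange σ).toRingEquiv
      (RingEquiv.refl M') ?_
    ext x
    change ((AlgHom.equivFieldRange σ x : σ.fieldRange) : M') = algebraMap M M' x
    rw [hσ]
    rfl
  exact (Module.finrank_pos (R := σ.fieldRange) (M := M')).ne'

/-- adjoining a root of a polynomial -/
theorem ext_poly (hL : FunF k 1 L) {P : Polynomial L} (hP : 0 < P.natDegree) :
    ∃ (L' : Type) (_ : Field L') (_ : Algebra k L') (φ : L →ₐ[k] L') (β : L'),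
      Polynomial.eval₂ (φ : L →+* L') β P = 0 ∧ Module.finrank φ.fieldRange L' ≠ 0 ∧ FunF k 1 L' ∧
        ∀ h : L', ∃ P : Polynomial L, h = Polynomial.eval₂ (φ : L →+* L') β P := by
  obtain ⟨p, hp, hpd⟩ := Polynomial.exists_irreducible_of_natDegree_pos hP
  have hfact : Fact (Irreducible p) := ⟨hp⟩
  have hfin : Module.Finite L (AdjoinRoot p) := (AdjoinRoot.powerBasis hp.ne_zero).finite
  have hfr : Module.finrank (AdjoinRoot.ofAlgHom k p).fieldRange (AdjoinRoot p) ≠ 0 :=
    finrank_ne (AdjoinRoot.ofAlgHom k p) (fun x => rfl)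
  refine ⟨AdjoinRoot p, inferInstance, inferInstance, AdjoinRoot.ofAlgHom k p, AdjoinRoot.root p, ?_, hfr,
    Pool.Agent.LibCW77.funF_finite _ hfr hL, ?_⟩
  · obtain ⟨q, hq⟩ := hpd
    have h1 : Polynomial.eval₂ (AdjoinRoot.of p) (AdjoinRoot.root p) P = 0 := by
      rw [hq, Polynomial.eval₂_mul, AdjoinRoot.eval₂_root, zero_mul]
    exact h1
  · intro h
    obtain ⟨P, rfl⟩ := AdjoinRoot.mk_surjective h
    refine ⟨P, ?_⟩
    rw [← AdjoinRoot.aeval_eq]
    rfl

theorem exists_value [IsAlgClosed k] (hF : FunF k 1 L) (w : Place k L) {f : L} (hf : w.Reg f) :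
    ∃ c : k, w.Zer (f - algebraMap k L c) := by
  obtain ⟨h, hh⟩ := w.exists_uniformizer
  obtain ⟨c, hc⟩ := Pool.Agent.LibCHd.exists_val (k := k) (by rw [hF.trdeg]; simp)
    (AlgHom.id k L) w ⟨h, by rw [AlgHom.id_apply, hh]; omega⟩ f
    (by rw [AlgHom.id_apply]; exact hf)
  exact ⟨c, by rwa [AlgHom.id_apply] at hc⟩

/-- an element `r` which vanishes at `w` with `T * H₁(r) = r ^ e * H₂(r)`, `T` in the smaller field with orders divisible
by `e` -/
theorem ap_local [IsAlgClosed k] [CharZero k] {φ : L →ₐ[k] L'} (hfin : Module.finrank φ.fieldRange L' ≠ 0)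
    (hF : FunF k 1 L') (w : Place k L') {r : L'} {T : L} {e : ℕ} (he : 0 < e) (hr : 0 < w.ord r)
    (hd : ∀ v : Place k L, 0 < v.ord T → (e : ℤ) ∣ v.ord T) {H₁ H₂ : Polynomial k} (h1 : H₁.eval 0 ≠ 0)
    (h2 : H₂.eval 0 ≠ 0) (heq : φ T * Polynomial.aeval r H₁ = r ^ e * Polynomial.aeval r H₂) : Ap φ w r := by
  obtain ⟨v, ε, hε, hve⟩ := Pool.Agent.LibCW77.place_restr φ hfin w
  have hr0 : r ≠ 0 := by
    rintro rfl
    rw [w.ord_zero] at hr
    omega
  have hrz : w.Zer (r - algebraMap k L' 0) := by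
    rw [map_zero, sub_zero]
    exact Or.inr hr
  have hH1 : w.Zer (Polynomial.aeval r H₁ - algebraMap k L' (H₁.eval 0)) := Place.val_aeval hrz H₁
  have hH2 : w.Zer (Polynomial.aeval r H₂ - algebraMap k L' (H₂.eval 0)) := Place.val_aeval hrz H₂
  have hH10 := Place.ne_zero_of_val hH1 h1
  have hH20 := Place.ne_zero_of_val hH2 h2
  have hT0 : T ≠ 0 := by
    rintro rfl
    rw [map_zero, zero_mul] at heq
    exact mul_ne_zero (pow_ne_zero _ hr0) hH20 heq.symm
  have hφT : φ T ≠ 0 := (map_ne_zero φ).2 hT0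
  have hord : (ε : ℤ) * v.ord T = e * w.ord r := by
    have h3 := congrArg w.ord heq
    rw [w.ord_mul _ _ hφT hH10, w.ord_mul _ _ (pow_ne_zero _ hr0) hH20, w.ord_pow,
      Place.ord_eq_zero_of_val hH1 h1, Place.ord_eq_zero_of_val hH2 h2, add_zero, add_zero, hve] at h3
    exact h3
  have he' : (0 : ℤ) < e := by exact_mod_cast he
  have hεp : (0 : ℤ) < ε := by exact_mod_cast hε
  have hvT : 0 < v.ord T := by
    by_contra hcon
    have h4 : (ε : ℤ) * v.ord T ≤ 0 := mul_nonpos_of_nonneg_of_nonpos hεp.le (not_lt.1 hcon)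
    have h5 : 0 < (e : ℤ) * w.ord r := mul_pos he' hr
    omega
  obtain ⟨m, hm⟩ := hd v hvT
  have hm0 : 0 < m := by
    by_contra hcon
    have h4 : (e : ℤ) * m ≤ 0 := mul_nonpos_of_nonneg_of_nonpos he'.le (not_lt.1 hcon)
    omega
  have hwr : w.ord r = ε * m := by
    have h3 : (e : ℤ) * w.ord r = e * (ε * m) := by
      rw [← hord, hm]
      ring
    exact mul_left_cancel₀ he'.ne' h3
  obtain ⟨π, hπ⟩ := v.exists_uniformizer
  have hπ0 : π ≠ 0 := by
    rintro rfl
    rw [v.ord_zero] at hπ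
    omega
  obtain ⟨g, hg⟩ : ∃ g : L, g = π ^ m := ⟨_, rfl⟩
  have hg0 : g ≠ 0 := by
    rw [hg]
    exact zpow_ne_zero m hπ0
  have hvg : v.ord g = m := by rw [hg, v.ord_zpow, hπ, mul_one]
  have hφg : φ g ≠ 0 := (map_ne_zero φ).2 hg0
  obtain ⟨z, hz⟩ : ∃ z : L', z = r / φ g := ⟨_, rfl⟩
  have hz0 : z ≠ 0 := by
    rw [hz]
    exact div_ne_zero hr0 hφg
  have hwz : w.ord z = 0 := by
    rw [hz, w.ord_div _ _ hr0 hφg, hve, hvg, hwr]
    ring
  have hrz' : r = φ g * z := by
    rw [hz]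
    field_simp
  obtain ⟨c, hc⟩ := exists_value hF w (f := z) (Or.inr hwz.ge)
  have hc0 : c ≠ 0 := by
    rintro rfl
    rw [map_zero, sub_zero] at hc
    rcases hc with hc | hc
    · exact hz0 hc
    · omega
  have hgz : w.Zer (φ g) := by
    right
    rw [hve, hvg]
    exact mul_pos hεp hm0
  have hτ : w.Reg (φ (T / g ^ e)) := by
    right
    rw [hve, v.ord_div _ _ hT0 (pow_ne_zero _ hg0), v.ord_pow, hm, hvg, sub_self, mul_zero]
  have heq' : z ^ e * Polynomial.aeval (φ g * z) H₂ = φ (T / g ^ e) * Polynomial.aeval (φ g * z) H₁ := by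
    rw [← hrz', map_div₀, map_pow, hz, div_pow, div_mul_eq_mul_div, div_mul_eq_mul_div, heq]
  have hAz : Ap φ w z := by
    intro N
    obtain ⟨b, _, hb⟩ := approx_pull φ w he hc0 hc hgz hτ h2 heq' N.toNat
    refine ⟨b, ?_⟩
    rcases hb with hb | hb
    · left
      rw [hb, sub_self]
    · right
      rw [← neg_sub, w.ord_neg]
      omega
  rw [hrz']
  exact (Ap.of φ w g).mul hAz

end Pool.Agent.LibPS77
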