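import Pool.Agent.LibPS77.P3
import Pool.Agent.LibVT36.Fin

/-!
[PS77 P4] The signature of the pull-back by a polynomial map (formula of Riemann and Hurwitz).
-/

open scoped Classical

namespace Pool.Agent.LibPS77

open Pool.Agent.LibBH2
open Pool.Agent.LibCHd (FunF)
open Pool.Agent.LibVT36 (cc IsEt NC lp Ram Orb)
open Polynomial

variable {k : Type} [Field k]

theorem ram_mono {L : Type} [Field L] [Algebra k L] {t : L} {p : Option k} {m n : ℕ} (h : Ram t p n) (hmn : m ∣ n) :
    Ram t p m := fun w hw => (Int.natCast_dvd_natCast.2 hmn).trans (h w hw)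

theorem ram_one {L : Type} [Field L] [Algebra k L] {t : L} {p : Option k} : Ram t p 1 :=
  fun w _ => by rw [Nat.cast_one]; exact one_dvd _

theorem mu_der [CharZero k] (f : k[X]) (a : k) : f.derivative.rootMultiplicity a = mu f a - 1 := by
  have h1 : (f - C (f.eval a)).IsRoot a := by simp
  have h2 := derivative_rootMultiplicity_of_root h1
  rw [derivative_sub, derivative_C, sub_zero] at h2
  exact h2

/-- the total ramification of a polynomial map at finite points -/
theorem sum_mu_le [CharZero k] {f : k[X]} (hn : 0 < f.natDegree) (A : Finset k) :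
    ∑ a ∈ A, (mu f a - 1) ≤ f.natDegree - 1 := by
  have h1 : ∑ a ∈ A, (mu f a - 1) ≤ ∑ a ∈ f.derivative.roots.toFinset, f.derivative.roots.count a := by
    have h2 : ∑ a ∈ A, (mu f a - 1) = ∑ a ∈ A ∩ f.derivative.roots.toFinset, (mu f a - 1) := by
      symm
      apply Finset.sum_subset Finset.inter_subset_left
      intro a ha hna
      rw [← mu_der, ← count_roots]
      apply Multiset.count_eq_zero_of_notMem
      intro h3
      exact hna (Finset.mem_inter.2 ⟨ha, Multiset.mem_toFinset.2 h3⟩)
    rw [h2]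
    have h3 : ∑ a ∈ A ∩ f.derivative.roots.toFinset, (mu f a - 1) =
        ∑ a ∈ A ∩ f.derivative.roots.toFinset, f.derivative.roots.count a := by
      refine Finset.sum_congr rfl fun a _ => ?_
      rw [count_roots, mu_der]
    rw [h3]
    exact Finset.sum_le_sum_of_subset Finset.inter_subset_right
  rw [Multiset.toFinset_sum_count_eq] at h1
  refine h1.trans ((card_roots' _).trans ?_)
  exact natDegree_derivative_le f

/-- the number of points over `b`, counted with multiplicities -/
theorem sum_mu_eq [IsAlgClosed k] {f : k[X]} (b : k) :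
    ∑ a ∈ (f - C b).roots.toFinset, mu f a = f.natDegree := by
  have h1 : ∑ a ∈ (f - C b).roots.toFinset, mu f a =
      ∑ a ∈ (f - C b).roots.toFinset, (f - C b).roots.count a := by
    refine Finset.sum_congr rfl fun a ha => ?_
    rw [Multiset.mem_toFinset] at ha
    have h2 : f.eval a = b := by
      have h3 := (mem_roots'.1 ha).2
      rw [IsRoot.def, eval_sub, eval_C, sub_eq_zero] at h3
      exact h3
    rw [count_roots, mu, h2]
  rw [h1, Multiset.toFinset_sum_count_eq, ← natDegree_sub_C (a := b)]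
  exact (splits_iff_card_roots.1 (IsAlgClosed.splits _))

/-- the pull-back by a polynomial map -/
theorem orb_pull [IsAlgClosed k] [CharZero k] {L : Type} [Field L] [Algebra k L] (hL : FunF k 1 L) {t : L}
    (ht : NC k t) {S : Finset (Option k)} {n : Option k → ℕ} (h : ∀ p ∈ S, 2 ≤ n p ∧ Ram t p (n p))
    (hs : (2 : ℚ) < ∑ p ∈ S, ((1 : ℚ) - 1 / n p)) {f : k[X]} (hd : 0 < f.natDegree) (h0 : none ∈ S)
    (hinf : f.natDegree ∣ n none)
    (hfin : ∀ a : k, mu f a = 1 ∨ some (f.eval a) ∈ S ∧ mu f a ∣ n (some (f.eval a)))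
    {a a' : k} (haa : a ≠ a') (hS : some (f.eval a) ∈ S) (hfa : f.eval a' = f.eval a)
    (hcop : ¬ Nat.Coprime (n (some (f.eval a)) / mu f a) (n (some (f.eval a)) / mu f a')) :
    ∃ (L' : Type) (_ : Field L') (_ : Algebra k L') (φ : L →ₐ[k] L'), IsEt φ ∧ FunF k 1 L' ∧ Orb k L' := by
  have hdvd : ∀ a : k, some (f.eval a) ∈ S → mu f a ∣ n (some (f.eval a)) := by
    intro a _
    rcases hfin a with h1 | h1
    · rw [h1]
      exact one_dvd _
    · exact h1.2
  obtain ⟨L', i1, i2, φ, s, hφ, hF, hsNC, hsf⟩ := pull hL ht hd (ram_mono (h none h0).2 hinf) (by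
    intro a
    rcases hfin a with h1 | h1
    · rw [h1]
      exact ram_one
    · exact ram_mono (h _ h1.1).2 h1.2)
  set n' : Option k → ℕ := fun q => q.elim (n none / f.natDegree) (fun a => n (some (f.eval a)) / mu f a) with hn'
  set S₀ : Finset k := Finset.eraseNone S with hS₀
  set R : k → Finset k := fun b => (f - C b).roots.toFinset with hR
  have hmemR : ∀ a b : k, a ∈ R b ↔ f.eval a = b := by
    intro a b
    rw [hR]
    simp only [Multiset.mem_toFinset]
    rw [mem_roots (sub_ne hd b), IsRoot.def, eval_sub, eval_C, sub_eq_zero]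
  set A : Finset k := S₀.biUnion R with hA
  have hmemA : ∀ a, a ∈ A ↔ some (f.eval a) ∈ S := by
    intro a
    rw [hA, Finset.mem_biUnion]
    constructor
    · rintro ⟨b, hb, hab⟩
      rw [(hmemR a b).1 hab]
      exact Finset.mem_eraseNone.1 hb
    · intro h1
      exact ⟨f.eval a, Finset.mem_eraseNone.2 h1, (hmemR a _).2 rfl⟩
  set S' : Finset (Option k) := (Finset.insertNone A).filter (fun q => 2 ≤ n' q) with hS'
  have hmem' : ∀ q, q ∈ Finset.insertNone A → Ram s q (n' q) := by
    intro q hq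
    rcases q with _ | a
    · refine ram_inf hd hφ ht hsNC hsf ?_
      show Ram t none (f.natDegree * (n none / f.natDegree))
      rw [Nat.mul_div_cancel' hinf]
      exact (h none h0).2
    · have ha : some (f.eval a) ∈ S := (hmemA a).1 (Finset.some_mem_insertNone.1 hq)
      refine ram_fin hd hφ hsNC hsf ?_
      show Ram t (some (f.eval a)) (mu f a * (n (some (f.eval a)) / mu f a))
      rw [Nat.mul_div_cancel' (hdvd a ha)]
      exact (h _ ha).2
  have hpos : ∀ q, q ∈ Finset.insertNone A → 1 ≤ n' q := by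
    intro q hq
    rcases q with _ | a
    · exact Nat.div_pos (Nat.le_of_dvd (by have := (h none h0).1; omega) hinf) hd
    · have ha : some (f.eval a) ∈ S := (hmemA a).1 (Finset.some_mem_insertNone.1 hq)
      exact Nat.div_pos (Nat.le_of_dvd (by have := (h _ ha).1; omega) (hdvd a ha)) (mu_pos hd a)
  -- the sum
  have hsum : ∑ q ∈ S', ((1 : ℚ) - 1 / n' q) = ∑ q ∈ Finset.insertNone A, ((1 : ℚ) - 1 / n' q) := by
    rw [hS']
    apply Finset.sum_filter_of_ne
    intro q hq hne
    by_contra hcon
    apply hne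
    have h1 := hpos q hq
    have h2 : n' q = 1 := by omega
    rw [h2]
    norm_num
  have hdq : (0 : ℚ) < f.natDegree := by exact_mod_cast hd
  have hpart : ∀ b ∈ S₀, ∑ a ∈ R b, ((1 : ℚ) - 1 / n' (some a)) =
      f.natDegree * (1 - 1 / n (some b)) - ∑ a ∈ R b, ((mu f a - 1 : ℕ) : ℚ) := by
    intro b hb
    have hbS : some b ∈ S := Finset.mem_eraseNone.1 hb
    have hnb : (0 : ℚ) < n (some b) := by
      have := (h _ hbS).1
      exact_mod_cast (by omega : 0 < n (some b))
    have h1 : (f.natDegree : ℚ) = ∑ a ∈ R b, (mu f a : ℚ) := by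
      rw [← sum_mu_eq (f := f) b, Nat.cast_sum]
    rw [h1, Finset.sum_mul, ← Finset.sum_sub_distrib]
    refine Finset.sum_congr rfl fun a ha => ?_
    have hfa : f.eval a = b := (hmemR a b).1 ha
    have h2 : (n' (some a) : ℚ) = n (some b) / mu f a := by
      show ((n (some (f.eval a)) / mu f a : ℕ) : ℚ) = _
      rw [Nat.cast_div (hdvd a (by rw [hfa]; exact hbS))
        (by exact_mod_cast (mu_pos hd a).ne'), hfa]
    rw [h2, Nat.cast_sub (mu_pos hd a), one_div_div]
    push_cast
    field_simp
    ring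
  have htot : ∑ q ∈ Finset.insertNone A, ((1 : ℚ) - 1 / n' q) =
      f.natDegree * ∑ p ∈ S, ((1 : ℚ) - 1 / n p) - (f.natDegree - 1) - ∑ a ∈ A, ((mu f a - 1 : ℕ) : ℚ) := by
    rw [Finset.sum_insertNone]
    have hdisj : (S₀ : Set k).PairwiseDisjoint R := by
      intro b _ b' _ hbb
      rw [Function.onFun, Finset.disjoint_left]
      intro a ha ha'
      exact hbb (((hmemR a b).1 ha).symm.trans ((hmemR a b').1 ha'))
    rw [hA, Finset.sum_biUnion hdisj, Finset.sum_biUnion hdisj, Finset.sum_congr rfl hpart]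
    rw [Finset.sum_sub_distrib, ← Finset.mul_sum]
    have hSi : ∑ p ∈ S, ((1 : ℚ) - 1 / n p) = (1 - 1 / n none) + ∑ b ∈ S₀, ((1 : ℚ) - 1 / n (some b)) := by
      rw [← Finset.sum_insertNone (fun p => (1 : ℚ) - 1 / n p), hS₀, Finset.insertNone_eraseNone,
        Finset.insert_eq_self.2 h0]
    rw [hSi]
    have h2 : (n' none : ℚ) = n none / f.natDegree := by
      show ((n none / f.natDegree : ℕ) : ℚ) = _
      rw [Nat.cast_div hinf hdq.ne']
    have hn0 : (0 : ℚ) < n none := by
      have := (h _ h0).1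
      exact_mod_cast (by omega : 0 < n none)
    rw [h2, one_div_div]
    field_simp
    ring
  have hram : ∑ a ∈ A, ((mu f a - 1 : ℕ) : ℚ) ≤ f.natDegree - 1 := by
    have h1 := sum_mu_le hd A
    have h2 : ((∑ a ∈ A, (mu f a - 1) : ℕ) : ℚ) ≤ ((f.natDegree - 1 : ℕ) : ℚ) := by exact_mod_cast h1
    rw [Nat.cast_sum, Nat.cast_sub hd, Nat.cast_one] at h2
    exact h2
  refine ⟨L', i1, i2, φ, hφ, hF, s, S', n', hsNC, ?_, ?_, ?_⟩
  · intro q hq
    rw [hS', Finset.mem_filter] at hq
    exact ⟨hq.2, hmem' q hq.1⟩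
  · rw [hsum, htot]
    nlinarith [hs, hdq, hram]
  · have hS'' : some (f.eval a') ∈ S := by rw [hfa]; exact hS
    have hm : ∀ b : k, some (f.eval b) ∈ S → some b ∈ Finset.insertNone A := fun b hb =>
      Finset.some_mem_insertNone.2 ((hmemA b).2 hb)
    have e1 : n' (some a) = n (some (f.eval a)) / mu f a := rfl
    have e2 : n' (some a') = n (some (f.eval a)) / mu f a' := by
      show n (some (f.eval a')) / mu f a' = _
      rw [hfa]
    have h1 := hpos _ (hm a hS)
    have h2 := hpos _ (hm a' hS'')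
    refine ⟨some a, ?_, some a', ?_, ?_, ?_⟩
    · rw [hS', Finset.mem_filter]
      refine ⟨hm a hS, ?_⟩
      by_contra hcon
      apply hcop
      rw [← e1, ← e2, show n' (some a) = 1 by omega]
      exact Nat.coprime_one_left _
    · rw [hS', Finset.mem_filter]
      refine ⟨hm a' hS'', ?_⟩
      by_contra hcon
      apply hcop
      rw [← e1, ← e2, show n' (some a') = 1 by omega]
      exact Nat.coprime_one_right _
    · simpa using haa
    · rw [e1, e2]
      exact hcop

end Pool.Agent.LibPS77
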