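import Pool.Agent.LibPS77.P4

/-!
[PS77 P5] Polynomials of degree 5 and 7 with ramification of type (2, 3): the signatures (2, 3, 5) and (2, 3, 7).
-/

open scoped Classical

namespace Pool.Agent.LibPS77

open Pool.Agent.LibBH2
open Pool.Agent.LibCHd (FunF)
open Pool.Agent.LibVT36 (cc IsEt NC lp Ram Orb)
open Polynomial

variable {k : Type} [Field k]

theorem rm_le_one [CharZero k] {A : k[X]} (hA : A ≠ 0) (h : ∀ a, A.eval a = 0 → A.derivative.eval a ≠ 0) (a : k) :
    A.rootMultiplicity a ≤ 1 := by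
  by_contra hcon
  have h1 := (one_lt_rootMultiplicity_iff_isRoot hA).1 (not_le.1 hcon)
  exact h a h1.1 h1.2

/-- a polynomial map with ramification of type 2 over 0 and of type 3 over 1 -/
theorem type23 [CharZero k] {f A D : k[X]} {e : k} (he : e ≠ 0) (hd : 0 < f.natDegree)
    (hder : derivative f = C e * A * D ^ 2) (hA : A ∣ f) (hD : D ∣ f - 1) (hA0 : A ≠ 0) (hD0 : D ≠ 0)
    (sA : ∀ a, A.eval a = 0 → A.derivative.eval a ≠ 0) (sD : ∀ a, D.eval a = 0 → D.derivative.eval a ≠ 0) (a : k) :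
    (mu f a = 1 ∧ A.eval a ≠ 0 ∧ D.eval a ≠ 0) ∨ (A.eval a = 0 ∧ f.eval a = 0 ∧ mu f a = 2) ∨
      (D.eval a = 0 ∧ f.eval a = 1 ∧ mu f a = 3) := by
  have h1 := mu_der f a
  have hne : C e * A * D ^ 2 ≠ 0 := mul_ne_zero (mul_ne_zero (C_ne_zero.2 he) hA0) (pow_ne_zero _ hD0)
  have hp := mu_pos hd a
  rw [hder, rootMultiplicity_mul hne, rootMultiplicity_mul (mul_ne_zero (C_ne_zero.2 he) hA0), rootMultiplicity_C,
    zero_add] at h1
  have h2 : (D ^ 2).rootMultiplicity a = 2 * D.rootMultiplicity a := by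
    rw [← count_roots, roots_pow, Multiset.count_nsmul, count_roots]
  rw [h2] at h1
  have hfA : A.eval a = 0 → f.eval a = 0 := by
    intro h
    obtain ⟨g, hg⟩ := hA
    rw [hg, eval_mul, h, zero_mul]
  have hfD : D.eval a = 0 → f.eval a = 1 := by
    intro h
    obtain ⟨g, hg⟩ := hD
    have h3 : (f - 1).eval a = 0 := by rw [hg, eval_mul, h, zero_mul]
    rw [eval_sub, eval_one, sub_eq_zero] at h3
    exact h3
  have hrA : A.eval a ≠ 0 → A.rootMultiplicity a = 0 := fun h => rootMultiplicity_eq_zero h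
  have hrD : D.eval a ≠ 0 → D.rootMultiplicity a = 0 := fun h => rootMultiplicity_eq_zero h
  have hrA1 : A.eval a = 0 → A.rootMultiplicity a = 1 := by
    intro h
    have h3 := rm_le_one hA0 sA a
    have h4 := (rootMultiplicity_pos hA0).2 h
    omega
  have hrD1 : D.eval a = 0 → D.rootMultiplicity a = 1 := by
    intro h
    have h3 := rm_le_one hD0 sD a
    have h4 := (rootMultiplicity_pos hD0).2 h
    omega
  by_cases ha : A.eval a = 0
  · have hd' : D.eval a ≠ 0 := by
      intro h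
      have h3 := hfA ha
      rw [hfD h] at h3
      exact one_ne_zero h3
    right
    left
    refine ⟨ha, hfA ha, ?_⟩
    rw [hrA1 ha, hrD hd'] at h1
    omega
  · by_cases hd' : D.eval a = 0
    · right
      right
      refine ⟨hd', hfD hd', ?_⟩
      rw [hrA ha, hrD1 hd'] at h1
      omega
    · left
      refine ⟨?_, ha, hd'⟩
      rw [hrA ha, hrD hd'] at h1
      omega

/-- two simple points over `b` -/
theorem two_simple [IsAlgClosed k] {f : k[X]} (hd : 0 < f.natDegree) {b : k} {M : Finset k} {m c : ℕ} (hM : M.card ≤ c)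
    (h : ∀ a, f.eval a = b → mu f a = 1 ∨ a ∈ M ∧ mu f a ≤ m) (hc : m * c + 2 ≤ f.natDegree) :
    ∃ a a' : k, a ≠ a' ∧ f.eval a = b ∧ f.eval a' = b ∧ mu f a = 1 ∧ mu f a' = 1 := by
  set R : Finset k := (f - C b).roots.toFinset with hR
  have hmemR : ∀ a : k, a ∈ R ↔ f.eval a = b := by
    intro a
    rw [hR, Multiset.mem_toFinset, mem_roots (sub_ne hd b), IsRoot.def, eval_sub, eval_C, sub_eq_zero]
  set R1 : Finset k := R.filter (fun a => mu f a = 1) with hR1
  have h1 : f.natDegree ≤ R1.card + m * c := by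
    rw [← sum_mu_eq (f := f) b, ← hR, ← Finset.sum_filter_add_sum_filter_not R (fun a => mu f a = 1)]
    refine Nat.add_le_add ?_ ?_
    · rw [Finset.sum_congr rfl (g := fun _ => 1) (fun a ha => (Finset.mem_filter.1 ha).2), Finset.card_eq_sum_ones]
    · refine (Finset.sum_le_sum (g := fun _ => m) ?_).trans ?_
      · intro a ha
        rcases h a ((hmemR a).1 (Finset.mem_filter.1 ha).1) with h2 | h2
        · exact absurd h2 (Finset.mem_filter.1 ha).2
        · exact h2.2
      · rw [Finset.sum_const, smul_eq_mul, mul_comm]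
        refine Nat.mul_le_mul_left _ (le_trans (Finset.card_le_card ?_) hM)
        intro a ha
        rcases h a ((hmemR a).1 (Finset.mem_filter.1 ha).1) with h2 | h2
        · exact absurd h2 (Finset.mem_filter.1 ha).2
        · exact h2.1
  obtain ⟨a, ha, a', ha', haa⟩ := Finset.one_lt_card.1 (by omega : 1 < R1.card)
  rw [hR1, Finset.mem_filter] at ha ha'
  exact ⟨a, a', haa, (hmemR a).1 ha.1, (hmemR a').1 ha'.1, ha.2, ha'.2⟩

/-- three given points are moved to 0, 1, infinity -/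
theorem mob_orb [IsAlgClosed k] [CharZero k] {L : Type} [Field L] [Algebra k L] {t : L}
    (ht : NC k t) {S : Finset (Option k)} {n : Option k → ℕ} (h : ∀ p ∈ S, 2 ≤ n p ∧ Ram t p (n p))
    (hs : (2 : ℚ) < ∑ p ∈ S, ((1 : ℚ) - 1 / n p)) {p q r : Option k} (hp : p ∈ S) (hq : q ∈ S) (hr : r ∈ S)
    (hpq : p ≠ q) (hpr : p ≠ r) (hqr : q ≠ r) :
    ∃ (t' : L) (S' : Finset (Option k)) (n' : Option k → ℕ), NC k t' ∧ (∀ p ∈ S', 2 ≤ n' p ∧ Ram t' p (n' p)) ∧
      (2 : ℚ) < ∑ p ∈ S', ((1 : ℚ) - 1 / n' p) ∧ some 0 ∈ S' ∧ some 1 ∈ S' ∧ none ∈ S' ∧ n' (some 0) = n p ∧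
      n' (some 1) = n q ∧ n' none = n r := by
  obtain ⟨t', μ, ht', hμ, h1, h2, h3, h4⟩ := Pool.Agent.LibVT36.mob3 ht (p := p) (q := r) (r := q) hpr hpq hqr.symm
  have hext : ∀ a, Function.extend μ n 0 (μ a) = n a := fun a => hμ.extend_apply n 0 a
  refine ⟨t', S.image μ, Function.extend μ n 0, ht', ?_, ?_, ?_, ?_, ?_, ?_, ?_, ?_⟩
  · intro a ha
    obtain ⟨b, hb, rfl⟩ := Finset.mem_image.1 ha
    rw [hext]
    exact ⟨(h b hb).1, h4 b _ (h b hb).2⟩
  · rw [Finset.sum_image (fun a _ b _ hab => hμ hab)]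
    simp only [hext]
    exact hs
  · rw [← h1]
    exact Finset.mem_image_of_mem _ hp
  · rw [← h3]
    exact Finset.mem_image_of_mem _ hq
  · rw [← h2]
    exact Finset.mem_image_of_mem _ hr
  · rw [← h1, hext]
  · rw [← h3, hext]
  · rw [← h2, hext]

end Pool.Agent.LibPS77
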