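import Pool.Agent.LibPS77.P5

/-!
[PS77 P6] The signatures divisible by (2, 3, 5) and (2, 3, 7).
-/

open scoped Classical

namespace Pool.Agent.LibPS77

open Pool.Agent.LibBH2
open Pool.Agent.LibCHd (FunF)
open Pool.Agent.LibVT36 (cc IsEt NC lp Ram Orb)
open Polynomial

variable {k : Type} [Field k]

theorem quad_simple {u v : k} (h : u ^ 2 - 4 * v ≠ 0) (a : k) (ha : (X ^ 2 + C u * X + C v : k[X]).eval a = 0) :
    (derivative (X ^ 2 + C u * X + C v : k[X])).eval a ≠ 0 := by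
  intro h1
  simp only [eval_add, eval_pow, eval_X, eval_mul, eval_C, derivative_add, derivative_X_pow, derivative_mul,
    derivative_C, derivative_X, zero_mul, zero_add, mul_one, add_zero, Nat.cast_ofNat, map_ofNat, eval_ofNat,
    Nat.add_one_sub_one, pow_one] at ha h1
  apply h
  linear_combination -4 * ha + (2 * a + u) * h1

theorem quad_ne {u v : k} : (X ^ 2 + C u * X + C v : k[X]) ≠ 0 := by
  intro h
  have h1 := congrArg (fun p : k[X] => p.coeff 2) h
  simp [coeff_X, coeff_C] at h1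

/-- the polynomial of degree 7 -/
theorem poly7 [IsAlgClosed k] [CharZero k] : ∃ (f A D : k[X]) (e : k), e ≠ 0 ∧ f.natDegree = 7 ∧
    derivative f = C e * A * D ^ 2 ∧ A ∣ f ∧ D ∣ f - 1 ∧ A ≠ 0 ∧ D ≠ 0 ∧
    (∀ a, A.eval a = 0 → A.derivative.eval a ≠ 0) ∧ (∀ a, D.eval a = 0 → D.derivative.eval a ≠ 0) ∧
    A.natDegree = 2 := by
  obtain ⟨r, hr⟩ : ∃ r : k, 4 * r ^ 2 - 11 * r + 8 = 0 := by
    have hdeg : (C 4 * X ^ 2 + C (-11) * X + C 8 : k[X]).degree = 2 := degree_quadratic (by norm_num)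
    obtain ⟨r, hr⟩ := IsAlgClosed.exists_root (C 4 * X ^ 2 + C (-11) * X + C 8 : k[X]) (by rw [hdeg]; norm_num)
    refine ⟨r, ?_⟩
    rw [IsRoot.def] at hr
    simp only [eval_add, eval_mul, eval_C, eval_pow, eval_X] at hr
    linear_combination hr
  have hr0 : r ≠ 0 := by
    rintro rfl
    norm_num at hr
  have hr1 : 4 * r - 3 ≠ 0 := by
    intro h
    have h1 : (2 : k) = 0 := by linear_combination hr - (r - 2) * h
    norm_num at h1
  have hr2 : (4 : k) ^ 2 - 4 * r ≠ 0 := by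
    intro h
    have h1 : (28 : k) = 0 := by linear_combination hr + (r + 5 / 4) * h
    norm_num at h1
  have hr3 : (7 : k) ^ 2 - 4 * (7 * r) ≠ 0 := by
    intro h
    have h1 : (1 : k) = 0 := by linear_combination hr + (1 / 7 * r - 1 / 7) * h
    norm_num at h1
  obtain ⟨c, hc⟩ : ∃ c : k, c = 27 * r ^ 2 * (4 * r - 3) := ⟨_, rfl⟩
  have hc0 : c ≠ 0 := by
    rw [hc]
    exact mul_ne_zero (mul_ne_zero (by norm_num) (pow_ne_zero _ hr0)) hr1
  have hrC : (4 * C r ^ 2 - 11 * C r + 8 : k[X]) = 0 := by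
    have h1 := congrArg (C : k →+* k[X]) hr
    rw [map_add, map_sub, map_mul, map_mul, map_pow, map_zero, map_ofNat, map_ofNat, map_ofNat] at h1
    exact h1
  have hcC : (C c : k[X]) = 27 * C r ^ 2 * (4 * C r - 3) := by
    rw [hc, C_mul, C_mul, C_pow, C_sub, C_mul, map_ofNat, map_ofNat, map_ofNat]
  have hci : (C c⁻¹ : k[X]) * C c = 1 := by
    rw [← C_mul, inv_mul_cancel₀ hc0, C_1]
  have h77 : (C (7 * r) : k[X]) = 7 * C r := by rw [C_mul, map_ofNat]
  have h7 : (C (7 : k) : k[X]) = 7 := map_ofNat C 7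
  have h4 : (C (4 : k) : k[X]) = 4 := map_ofNat C 4
  have hD' : derivative (X ^ 2 + C 7 * X + C (7 * r) : k[X]) = 2 * X + 7 := by
    rw [h7]
    simp only [derivative_add, derivative_mul, derivative_C, derivative_X, derivative_X_pow, derivative_ofNat]
    rw [map_natCast]
    push_cast
    ring
  set A : k[X] := X ^ 2 + C 4 * X + C r with hA
  set D : k[X] := X ^ 2 + C 7 * X + C (7 * r) with hD
  set f : k[X] := 1 + C c⁻¹ * (X * D ^ 3) with hf
  have hfA : f = C c⁻¹ * A ^ 2 * (X ^ 3 + 13 * X ^ 2 + (27 + 19 * C r) * X + (108 * C r - 81)) := by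
    rw [hf, hA, hD, h77, h7, h4]
    linear_combination -hci + C c⁻¹ * hcC + (27 * X ^ 3 + 162 * X ^ 2 + 81 * C r * X) * C c⁻¹ * hrC
  refine ⟨f, A, D, c⁻¹ * 7, mul_ne_zero (inv_ne_zero hc0) (by norm_num), ?_, ?_, ?_, ?_, quad_ne, quad_ne,
    quad_simple hr2, quad_simple hr3, ?_⟩
  · have hD2 : D.natDegree = 2 := by
      rw [hD]
      compute_degree!
    have hD0 : D ≠ 0 := quad_ne
    rw [hf, add_comm, ← C_1, natDegree_add_C, natDegree_C_mul (inv_ne_zero hc0), natDegree_mul X_ne_zero (pow_ne_zero _ hD0),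
      natDegree_pow, natDegree_X, hD2]
  · rw [hf]
    have hDd : derivative D = 2 * X + 7 := hD'
    rw [derivative_add, derivative_one, derivative_C_mul, derivative_mul, derivative_X, derivative_pow, hDd, C_mul, h7, hA,
      hD, h77, h7, h4, map_natCast]
    push_cast
    ring
  · rw [hfA]
    exact ⟨C c⁻¹ * A * (X ^ 3 + 13 * X ^ 2 + (27 + 19 * C r) * X + (108 * C r - 81)), by ring⟩
  · rw [hf]
    exact ⟨C c⁻¹ * (X * D ^ 2), by ring⟩
  · rw [hA]
    compute_degree!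

/-- the polynomial of degree 5 -/
theorem poly5 [IsAlgClosed k] [CharZero k] : ∃ (f A D : k[X]) (e : k), e ≠ 0 ∧ f.natDegree = 5 ∧
    derivative f = C e * A * D ^ 2 ∧ A ∣ f ∧ D ∣ f - 1 ∧ A ≠ 0 ∧ D ≠ 0 ∧
    (∀ a, A.eval a = 0 → A.derivative.eval a ≠ 0) ∧ (∀ a, D.eval a = 0 → D.derivative.eval a ≠ 0) ∧
    D.natDegree = 1 := by
  have hc0 : (-1728 : k) ≠ 0 := by norm_num
  have hci : (C (-1728 : k)⁻¹ : k[X]) * C (-1728) = 1 := by
    rw [← C_mul, inv_mul_cancel₀ hc0, C_1]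
  have hcC : (C (-1728 : k) : k[X]) = -1728 := by rw [C_neg, map_ofNat]
  have h24 : (C (24 : k) : k[X]) = 24 := map_ofNat C 24
  have h4 : (C (4 : k) : k[X]) = 4 := map_ofNat C 4
  set A : k[X] := X ^ 2 + C 4 * X + C 24 with hA
  set f : k[X] := 1 + C (-1728)⁻¹ * (X ^ 3 * (X ^ 2 + 5 * X + 40)) with hf
  have hfA : f = C (-1728)⁻¹ * A ^ 2 * (X - 3) := by
    rw [hf, hA, h4, h24]
    linear_combination -hci + C (-1728)⁻¹ * hcC
  refine ⟨f, A, X, (-1728)⁻¹ * 5, mul_ne_zero (inv_ne_zero hc0) (by norm_num), ?_, ?_, ?_, ?_, quad_ne, X_ne_zero,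
    quad_simple (by norm_num), ?_, natDegree_X⟩
  · have hG : (X ^ 3 * (X ^ 2 + 5 * X + 40) : k[X]).natDegree = 5 := by
      have : (X ^ 3 * (X ^ 2 + 5 * X + 40) : k[X]) = X ^ 5 + 5 * X ^ 4 + 40 * X ^ 3 := by ring
      rw [this]
      compute_degree!
    rw [hf, add_comm, ← C_1, natDegree_add_C, natDegree_C_mul (inv_ne_zero hc0), hG]
  · have hG : (X ^ 3 * (X ^ 2 + 5 * X + 40) : k[X]) = X ^ 5 + 5 * X ^ 4 + 40 * X ^ 3 := by ring
    have h5 : (C (5 : k) : k[X]) = 5 := map_ofNat C 5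
    rw [hf, hG, derivative_add, derivative_one, derivative_C_mul, derivative_add, derivative_add, derivative_mul,
      derivative_mul, derivative_X_pow, derivative_X_pow, derivative_X_pow, derivative_ofNat, derivative_ofNat, C_mul,
      h5, hA, h4, h24, map_natCast, map_natCast, map_natCast]
    push_cast
    ring
  · rw [hfA]
    exact ⟨C (-1728)⁻¹ * A * (X - 3), by ring⟩
  · rw [hf]
    exact ⟨C (-1728)⁻¹ * (X ^ 2 * (X ^ 2 + 5 * X + 40)), by ring⟩
  · intro a _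
    simp

end Pool.Agent.LibPS77
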