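import Pool.Agent.LibPS77.P6

/-!
[PS77 P7] A hyperbolic signature with numbers divisible by 2, 3 and 5 or 7 has an unramified covering with a signature
which is not pairwise coprime.
-/

open scoped Classical

namespace Pool.Agent.LibPS77

open Pool.Agent.LibBH2
open Pool.Agent.LibCHd (FunF)
open Pool.Agent.LibVT36 (cc IsEt NC lp Ram Orb)
open Polynomial

variable {k : Type} [Field k]

theorem not_cop {n a b : ℕ} (hn : 2 ≤ n) (ha : a = 1) (hb : b = 1) : ¬ Nat.Coprime (n / a) (n / b) := by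
  rw [ha, hb, Nat.div_one, Nat.coprime_self]
  omega

theorem orb_23 [IsAlgClosed k] [CharZero k] {L : Type} [Field L] [Algebra k L] (hL : FunF k 1 L) {t : L}
    (ht : NC k t) {S : Finset (Option k)} {n : Option k → ℕ} (h : ∀ p ∈ S, 2 ≤ n p ∧ Ram t p (n p))
    (hs : (2 : ℚ) < ∑ p ∈ S, ((1 : ℚ) - 1 / n p)) {p q r : Option k} (hp : p ∈ S) (hq : q ∈ S) (hr : r ∈ S)
    (hpq : p ≠ q) (hpr : p ≠ r) (hqr : q ≠ r) (h2 : 2 ∣ n p) (h3 : 3 ∣ n q) (h57 : 5 ∣ n r ∨ 7 ∣ n r) :
    ∃ (L' : Type) (_ : Field L') (_ : Algebra k L') (φ : L →ₐ[k] L'), IsEt φ ∧ FunF k 1 L' ∧ Orb k L' := by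
  obtain ⟨t', S', n', ht', h', hs', h0S, h1S, hiS, e0, e1, ei⟩ := mob_orb ht h hs hp hq hr hpq hpr hqr
  rw [← e0] at h2
  rw [← e1] at h3
  rw [← ei] at h57
  have key : ∀ (f A D : k[X]) (e : k), e ≠ 0 → 0 < f.natDegree → derivative f = C e * A * D ^ 2 → A ∣ f → D ∣ f - 1 →
      A ≠ 0 → D ≠ 0 → (∀ a, A.eval a = 0 → A.derivative.eval a ≠ 0) → (∀ a, D.eval a = 0 → D.derivative.eval a ≠ 0) →
      f.natDegree ∣ n' none → (∃ a a' : k, a ≠ a' ∧ some (f.eval a) ∈ S' ∧ f.eval a' = f.eval a ∧ mu f a = 1 ∧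
        mu f a' = 1) →
      ∃ (L' : Type) (_ : Field L') (_ : Algebra k L') (φ : L →ₐ[k] L'), IsEt φ ∧ FunF k 1 L' ∧ Orb k L' := by
    intro f A D e he hd hder hA hD hA0 hD0 sA sD hinf hpair
    obtain ⟨a, a', haa, hS, hfa, m1, m2⟩ := hpair
    refine orb_pull hL ht' h' hs' hd hiS hinf ?_ haa hS hfa (not_cop (h' _ hS).1 m1 m2)
    intro b
    rcases type23 he hd hder hA hD hA0 hD0 sA sD b with h4 | h4 | h4
    · exact Or.inl h4.1
    · right
      rw [h4.2.1, h4.2.2]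
      exact ⟨h0S, h2⟩
    · right
      rw [h4.2.1, h4.2.2]
      exact ⟨h1S, h3⟩
  rcases h57 with h5 | h7
  · obtain ⟨f, A, D, e, he, hdeg, hder, hA, hD, hA0, hD0, sA, sD, hDd⟩ := poly5 (k := k)
    have hd : 0 < f.natDegree := by omega
    refine key f A D e he hd hder hA hD hA0 hD0 sA sD (by rw [hdeg]; exact h5) ?_
    have hM : D.roots.toFinset.card ≤ 1 := by
      refine (Multiset.toFinset_card_le _).trans ((card_roots' _).trans ?_)
      omega
    obtain ⟨a, a', haa, h4, h5, h6, h7⟩ := two_simple hd (b := 1) (m := 3) hM (by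
      intro a ha
      rcases type23 he hd hder hA hD hA0 hD0 sA sD a with h4 | h4 | h4
      · exact Or.inl h4.1
      · rw [h4.2.1] at ha
        exact absurd ha zero_ne_one
      · right
        exact ⟨Multiset.mem_toFinset.2 ((mem_roots hD0).2 h4.1), h4.2.2.le⟩) (by omega)
    exact ⟨a, a', haa, by rw [h4]; exact h1S, by rw [h4, h5], h6, h7⟩
  · obtain ⟨f, A, D, e, he, hdeg, hder, hA, hD, hA0, hD0, sA, sD, hAd⟩ := poly7 (k := k)
    have hd : 0 < f.natDegree := by omega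
    refine key f A D e he hd hder hA hD hA0 hD0 sA sD (by rw [hdeg]; exact h7) ?_
    have hM : A.roots.toFinset.card ≤ 2 := by
      refine (Multiset.toFinset_card_le _).trans ((card_roots' _).trans ?_)
      omega
    obtain ⟨a, a', haa, h4, h5, h6, h7⟩ := two_simple hd (b := 0) (m := 2) hM (by
      intro a ha
      rcases type23 he hd hder hA hD hA0 hD0 sA sD a with h4 | h4 | h4
      · exact Or.inl h4.1
      · right
        exact ⟨Multiset.mem_toFinset.2 ((mem_roots hA0).2 h4.1), h4.2.2.le⟩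
      · rw [h4.2.1] at ha
        exact absurd ha one_ne_zero) (by omega)
    exact ⟨a, a', haa, by rw [h4]; exact h0S, by rw [h4, h5], h6, h7⟩

end Pool.Agent.LibPS77
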